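import Mathlib

/-!
# Jensen's formula and the zeros near a point where the function does not vanish
-/

set_option autoImplicit false

open Complex Filter Topology Set Metric MeromorphicOn

namespace Pool.Agent.L5helper40.ZR

/-- the summand: multiplicity times `log⁺` of the inverse distance -/
noncomputable def zt (L : ℂ → ℂ) (c u : ℂ) : ℝ :=
  (analyticOrderNatAt L u : ℝ) * Real.posLog (‖u - c‖⁻¹)

lemma zt_nonneg (L : ℂ → ℂ) (c u : ℂ) : 0 ≤ zt L c u :=
  mul_nonneg (Nat.cast_nonneg _) Real.posLog_nonneg

/-- **Jensen's formula**: the zeros near a point where the function is not zero -/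
theorem jens {L : ℂ → ℂ} (hL : Differentiable ℂ L) {c : ℂ} {M : ℝ} (hM : 1 ≤ M)
    (hb : ∀ s : ℂ, ‖s - c‖ ≤ 8 → ‖L s‖ ≤ M) (h0 : L c ≠ 0) :
    {u : ℂ | L u = 0 ∧ ‖u - c‖ ≤ 8}.Finite ∧
    (Function.support fun u => zt L c u).Finite ∧
    ∑ᶠ u : ℂ, zt L c u ≤ Real.log M - Real.log ‖L c‖ := by
  have hA : AnalyticOnNhd ℂ L (closedBall c |(8 : ℝ)|) := fun z _ => hL.analyticAt z
  have h8 : |(8 : ℝ)| = 8 := by norm_num
  have jensen := hA.circleAverage_log_norm (by norm_num) h0
  have hint : Real.circleAverage (fun x => Real.log ‖L x‖) c 8 ≤ Real.log M := by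
    apply Real.circleAverage_mono_on_of_le_circle
    · exact (hA.mono sphere_subset_closedBall).meromorphicOn.circleIntegrable_log_norm
    · intro z hz
      rw [mem_sphere_iff_norm, h8] at hz
      rcases eq_zero_or_norm_pos (L z) with h | h
      · simpa [h] using Real.log_nonneg hM
      · exact Real.log_le_log h (hb z hz.le)
  have htop : ∀ u : ℂ, analyticOrderAt L u ≠ ⊤ := by
    intro u hu
    have h1 : AnalyticOnNhd ℂ L univ := fun z _ => hL.analyticAt z
    have h2 : L = 0 := by
      refine h1.eq_of_eventuallyEq (g := 0) (fun z _ => analyticAt_const) (z₀ := u) ?_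
      exact analyticOrderAt_eq_top.1 hu
    exact h0 (by rw [h2]; rfl)
  have hD : ∀ u : ℂ, u ∈ closedBall c |(8 : ℝ)| →
      ((divisor L (closedBall c |(8 : ℝ)|) u : ℤ) : ℝ) = (analyticOrderNatAt L u : ℝ) := by
    intro u hu
    rw [AnalyticOnNhd.divisor_apply hA hu, ← Nat.cast_analyticOrderNatAt (htop u)]
    simp
  have hfin := (divisor L (closedBall c |(8 : ℝ)|)).finiteSupport (isCompact_closedBall c |(8 : ℝ)|)
  have hzt : ∀ u : ℂ, u ∉ closedBall c |(8 : ℝ)| → zt L c u = 0 := by
    intro u hu
    rw [h8, mem_closedBall_iff_norm, not_le] at hu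
    unfold zt
    have : Real.posLog (‖u - c‖⁻¹) = 0 := by
      rw [Real.posLog_eq_zero_iff, abs_of_nonneg (by positivity)]
      exact inv_le_one_of_one_le₀ (by linarith)
    rw [this, mul_zero]
  have hsub : (Function.support fun u => zt L c u) ⊆
      (divisor L (closedBall c |(8 : ℝ)|)).support := by
    intro u hu
    rw [Function.mem_support] at hu ⊢
    intro h
    by_cases hu' : u ∈ closedBall c |(8 : ℝ)|
    · have h2 := hD u hu'
      rw [h] at h2
      apply hu
      unfold zt
      rw [← h2, Int.cast_zero, zero_mul]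
    · exact hu (hzt u hu')
  refine ⟨?_, hfin.subset hsub, ?_⟩
  · refine hfin.subset fun u hu => ?_
    rw [Function.mem_support]
    have hu' : u ∈ closedBall c |(8 : ℝ)| := by
      rw [h8, mem_closedBall_iff_norm]; exact hu.2
    intro h
    have h2 := hD u hu'
    rw [h, Int.cast_zero] at h2
    have h3 : analyticOrderNatAt L u = 0 := by exact_mod_cast h2.symm
    have h4 : analyticOrderAt L u = 0 := by
      rw [← Nat.cast_analyticOrderNatAt (htop u), h3]; rfl
    exact ((hL.analyticAt u).analyticOrderAt_eq_zero.1 h4) hu.1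
  · calc ∑ᶠ u : ℂ, zt L c u
        ≤ ∑ᶠ u, ((divisor L (closedBall c |(8 : ℝ)|)) u) * Real.log (8 * ‖c - u‖⁻¹) := by
          refine finsum_le_finsum' (hfin.subset hsub) ?_ fun u => ?_
          · refine hfin.subset fun u hu => ?_
            rw [Function.mem_support] at hu ⊢
            intro h
            apply hu
            show (((divisor L (closedBall c |(8 : ℝ)|)) u : ℤ) : ℝ) * _ = 0
            rw [h, Int.cast_zero, zero_mul]
          · by_cases hu : u ∈ closedBall c |(8 : ℝ)|
            · show zt L c u ≤ (((divisor L (closedBall c |(8 : ℝ)|)) u : ℤ) : ℝ) * _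
              rw [hD u hu]
              unfold zt
              rw [h8, mem_closedBall_iff_norm] at hu
              rcases eq_or_ne u c with h | h
              · have : analyticOrderNatAt L u = 0 := by
                  unfold analyticOrderNatAt
                  rw [(hL.analyticAt u).analyticOrderAt_eq_zero.2 (by rw [h]; exact h0)]
                  rfl
                rw [this, Nat.cast_zero, zero_mul, zero_mul]
              · refine mul_le_mul_of_nonneg_left ?_ (Nat.cast_nonneg _)
                have h5 : 0 < ‖u - c‖ := norm_pos_iff.2 (sub_ne_zero.2 h)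
                rw [norm_sub_rev c u]
                have h6 : 1 ≤ 8 * ‖u - c‖⁻¹ := by
                  rw [← div_eq_mul_inv, le_div_iff₀ h5, one_mul]
                  exact hu
                unfold Real.posLog
                refine max_le (Real.log_nonneg h6) (Real.log_le_log (by positivity) ?_)
                have : 0 < ‖u - c‖⁻¹ := by positivity
                linarith
            · rw [hzt u hu]
              have h7 : divisor L (closedBall c |(8 : ℝ)|) u = 0 :=
                Function.locallyFinsuppWithin.apply_eq_zero_of_notMem _ hu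
              show 0 ≤ (((divisor L (closedBall c |(8 : ℝ)|)) u : ℤ) : ℝ) * _
              rw [h7, Int.cast_zero, zero_mul]
      _ ≤ Real.log M - Real.log ‖L c‖ := by linarith

end Pool.Agent.L5helper40.ZR
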