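import Pool.Agent.L5helper40.AF.M4

/-!
# The twisted L-functions are bounded by a power of the conductor near the central point
-/

set_option autoImplicit false

open Complex Filter Topology Set UpperHalfPlane MatrixGroups CongruenceSubgroup ZMod

namespace Pool.Agent.L5helper40.ZR

open Pool.Agent.TH940 (prim prim_deriv Fr prim_fricke mellin2)
open Pool.Agent.Y18.BSD
open Pool.Agent.K4H13.CV
open Pool.Agent.L5helper40.AF
open W388.LV (SF bf pet IsNewBasis)
open Pool.Agent.W440.TW (t_twist inv_primitive gauss_ne_zero)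

/-- the L-functions of the twists with the primitive characters, near the central point -/
theorem exists_twB : ∃ K : ℝ, 0 < K ∧ ∀ (N : ℕ) [NeZero N], N.Prime → ∀ (f : Cf2 N) (ε : ℝ),
    W388.IsNewf N 2 f ε → ∀ (c : ℕ) [NeZero c] (χ : DirichletCharacter ℂ c), χ.IsPrimitive →
    c.Coprime N → ∃ L : ℂ → ℂ, Differentiable ℂ L ∧
      (∀ s : ℂ, 4 < s.re → L s = ∑' n : ℕ, χ (n : ZMod c) * (W388.lamf f n : ℂ) * (n : ℂ) ^ (-s)) ∧
      ∀ s : ℂ, ‖s - 1 / 2‖ ≤ 8 → ‖L s‖ ≤ K * (Real.sqrt N * c) ^ 16 := by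
  obtain ⟨K, hK0, hK⟩ := mellin2 2 1 (by norm_num) (by norm_num)
  refine ⟨K, hK0, ?_⟩
  intro N _ hN f ε hf c _ χ hχ hco
  have hN1 : (1 : ℝ) ≤ N := by exact_mod_cast Nat.pos_of_ne_zero (NeZero.ne N)
  have hc1 : (1 : ℝ) ≤ c := by exact_mod_cast Nat.pos_of_ne_zero (NeZero.ne c)
  have hs1 : (1 : ℝ) ≤ Real.sqrt N := by rw [Real.one_le_sqrt]; exact hN1
  have hcoef := coef N hN f ε hf
  obtain ⟨w', hw', hth⟩ := t_twist N 2 (by norm_num) f ε hf c χ hχ hco
  obtain ⟨F, hF1, hF2, hF3, hF4⟩ := hK (fun n => χ (n : ZMod c) * (qExpansion 1 f).coeff n)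
    (Real.sqrt N * c) (by nlinarith) (by rw [W388.coeff_zero f, mul_zero])
    (fun n hn => by
      rw [norm_mul]
      have h1 := DirichletCharacter.norm_le_one χ (n : ZMod c)
      calc ‖χ (n : ZMod c)‖ * ‖(qExpansion 1 f).coeff n‖ ≤ 1 * ‖(qExpansion 1 f).coeff n‖ :=
            mul_le_mul_of_nonneg_right h1 (norm_nonneg _)
        _ ≤ _ := by
            rw [one_mul, one_mul, show (2 : ℝ) = ((2 : ℕ) : ℝ) by norm_num, Real.rpow_natCast]
            exact hcoef n) w' hw'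
    (fun t ht => by
      have := hth t ht
      rw [zpow_ofNat] at this
      exact this)
  refine ⟨F, hF1, ?_, hF4⟩
  intro s hs
  rw [hF2 s (by linarith)]
  refine tsum_congr fun n => ?_
  have hre : (((qExpansion 1 f).coeff n).re : ℂ) = (qExpansion 1 f).coeff n := by
    apply Complex.ext
    · rw [Complex.ofReal_re]
    · rw [Complex.ofReal_im]; exact (hf.real n).symm
  rcases Nat.eq_zero_or_pos n with rfl | hn
  · unfold W388.lamf
    rw [W388.coeff_zero f]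
    simp
  · have hn' : (0 : ℝ) < n := by exact_mod_cast hn
    have hnc : (n : ℂ) ≠ 0 := by exact_mod_cast hn.ne'
    unfold W388.lamf
    have e1 : ((((2 : ℤ) : ℝ) - 1) / 2) = 1 / 2 := by norm_num
    rw [e1, Complex.ofReal_div, hre, Complex.ofReal_cpow hn'.le, neg_add, Complex.cpow_add _ _ hnc]
    push_cast
    rw [Complex.cpow_neg (n : ℂ) (1 / 2)]
    ring

/-- the bound for the L-function of the twist with the primitive character of `χ` -/
theorem relB : ∃ K : ℝ, 0 < K ∧ ∀ (N q : ℕ) [NeZero N] [NeZero q], N.Prime → q.Coprime N →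
    ∀ (χ : DirichletCharacter ℂ q) (f : Cf2 N) (ε : ℝ), W388.IsNewf N 2 f ε →
    ∃ L : ℂ → ℂ, IsLtw f χ L ∧ ∀ s : ℂ, ‖s - 1 / 2‖ ≤ 8 → ‖L s‖ ≤ K * ((N : ℝ) * q) ^ 16 := by
  obtain ⟨K, hK0, hK⟩ := exists_twB
  refine ⟨K, hK0, ?_⟩
  intro N q _ _ hN hqN χ f ε hf
  have hN1 : (1 : ℝ) ≤ N := by exact_mod_cast Nat.pos_of_ne_zero (NeZero.ne N)
  have hq1 : (1 : ℝ) ≤ q := by exact_mod_cast Nat.pos_of_ne_zero (NeZero.ne q)
  have hcq : χ.conductor ∣ q := DirichletCharacter.conductor_dvd_level χ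
  haveI : NeZero χ.conductor := ⟨DirichletCharacter.conductor_ne_zero χ⟩
  have hcle : (χ.conductor : ℝ) ≤ q := by
    exact_mod_cast Nat.le_of_dvd (Nat.pos_of_ne_zero (NeZero.ne q)) hcq
  obtain ⟨L, hL1, hL2, hL4⟩ := hK N hN f ε hf χ.conductor χ.primitiveCharacter
    (DirichletCharacter.primitiveCharacter_isPrimitive χ) (Nat.Coprime.coprime_dvd_left hcq hqN)
  refine ⟨L, ⟨hL1, hL2⟩, fun s hs => (hL4 s hs).trans ?_⟩
  have h3 : Real.sqrt N ≤ N := by
    rw [Real.sqrt_le_left (by linarith)]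
    nlinarith
  gcongr

end Pool.Agent.L5helper40.ZR
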